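import Mathlib
import Pool.Agent.Y826.ZC.CM

/-! Task KC: the conditions on the weights of the certificate for `DHL[45,2]`. -/

set_option autoImplicit false

open Finset

namespace Pool.Agent.Y93.ZC

open Pool.Agent.H95R2.BG Pool.Agent.Y826.Z Pool.Agent.Y826.ZC
open Pool.Agent.H95R2.BG.Cert (look)

/-! ### Integer facts -/

theorem tm_mono (l : ℕ) (hl : l < 51) : look TM 32 l ≤ look TM 32 (l + 1) := by
  have h : ∀ l < 51, look TM 32 l ≤ look TM 32 (l + 1) := by decide +kernel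
  exact h l hl

theorem dG1 (b : ℕ) (hb : b < 512) : look GP 40 b ≤ 1048576 + look GN 40 b := by
  have h : ∀ b < 512, look GP 40 b ≤ 1048576 + look GN 40 b := by decide +kernel
  exact h b hb

theorem dB1 (b : ℕ) (hb : b < 512) : look BP 40 b ≤ 1048576 + look BN 40 b := by
  have h : ∀ b < 512, look BP 40 b ≤ 1048576 + look BN 40 b := by decide +kernel
  exact h b hb

theorem dT (b : ℕ) (hb : b < 512) :
    look GP 40 b + look BN 40 b = look TD 40 b + look GN 40 b + look BP 40 b := by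
  have h : ∀ b < 512, look GP 40 b + look BN 40 b = look TD 40 b + look GN 40 b + look BP 40 b := by
    decide +kernel
  exact h b hb

theorem dGA (j : ℕ) (hj : j < 52) :
    look GP 40 (479 - j) * (1024 * (30166 + (15403 - 32 * j)) + 60332 * look TM 32 j) ≤
      1048576 * (60332 * look TM 32 j) +
        look GN 40 (479 - j) * (1024 * (30166 + (15403 - 32 * j)) + 60332 * look TM 32 j) := by
  have h : ∀ j < 52,
      look GP 40 (479 - j) * (1024 * (30166 + (15403 - 32 * j)) + 60332 * look TM 32 j) ≤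
      1048576 * (60332 * look TM 32 j) +
        look GN 40 (479 - j) * (1024 * (30166 + (15403 - 32 * j)) + 60332 * look TM 32 j) := by
    decide +kernel
  exact h j hj

theorem dBA (j : ℕ) (hj : j < 52) :
    look BP 40 (459 - j) * (1024 * (30166 + (14763 - 32 * j)) + 60332 * look TM 32 j) ≤
      1048576 * (60332 * look TM 32 j) +
        look BN 40 (459 - j) * (1024 * (30166 + (14763 - 32 * j)) + 60332 * look TM 32 j) := by
  have h : ∀ j < 52,
      look BP 40 (459 - j) * (1024 * (30166 + (14763 - 32 * j)) + 60332 * look TM 32 j) ≤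
      1048576 * (60332 * look TM 32 j) +
        look BN 40 (459 - j) * (1024 * (30166 + (14763 - 32 * j)) + 60332 * look TM 32 j) := by
    decide +kernel
  exact h j hj

theorem dGB (j : ℕ) (hj : j < 32) :
    look GP 40 (480 + j) * (1024 * (14731 - 32 * j)) + 1048576 * (60332 * look TM 32 j) ≤
      look GN 40 (480 + j) * (1024 * (14731 - 32 * j)) := by
  have h : ∀ j < 32,
      look GP 40 (480 + j) * (1024 * (14731 - 32 * j)) + 1048576 * (60332 * look TM 32 j) ≤
      look GN 40 (480 + j) * (1024 * (14731 - 32 * j)) := by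
    decide +kernel
  exact h j hj

theorem dBB (j : ℕ) (hj : j < 52) :
    look BP 40 (460 + j) * (1024 * (15371 - 32 * j)) + 1048576 * (60332 * look TM 32 j) ≤
      look BN 40 (460 + j) * (1024 * (15371 - 32 * j)) := by
  have h : ∀ j < 52,
      look BP 40 (460 + j) * (1024 * (15371 - 32 * j)) + 1048576 * (60332 * look TM 32 j) ≤
      look BN 40 (460 + j) * (1024 * (15371 - 32 * j)) := by
    decide +kernel
  exact h j hj

/-! ### The multipliers -/

/-- shifted partial sums -/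
noncomputable def aa (l : ℕ) : ℝ := if l = 0 then 0 else (look TM 32 (l - 1) : ℝ)

theorem aa_succ (l : ℕ) : aa (l + 1) = (look TM 32 l : ℝ) := by
  unfold aa
  rw [if_neg (Nat.succ_ne_zero l), Nat.add_sub_cancel]

theorem mu_eq (l : Fin 52) : mu l = (aa ((l : ℕ) + 1) - aa l) / 1024 := by
  rw [aa_succ]
  unfold mu aa
  rfl

theorem mu_nonneg (l : Fin 52) : 0 ≤ mu l := by
  rw [mu_eq, aa_succ]
  refine div_nonneg ?_ (by norm_num)
  obtain ⟨l, hl⟩ := l
  show 0 ≤ (look TM 32 l : ℝ) - aa l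
  rcases l with _ | l
  · have h : aa 0 = 0 := by simp [aa]
    rw [h, sub_zero]
    exact Nat.cast_nonneg _
  · rw [aa_succ]
    have h : (look TM 32 l : ℝ) ≤ look TM 32 (l + 1) := by
      exact_mod_cast tm_mono l (by omega)
    linarith

theorem sum_mu (j : ℕ) (hj : j < 52) :
    (∑ l : Fin 52, if (l : ℕ) < j + 1 then mu l else 0) = (look TM 32 j : ℝ) / 1024 := by
  have h1 : (∑ l : Fin 52, if (l : ℕ) < j + 1 then mu l else 0) =
      ∑ l : Fin 52, (fun l : ℕ => if l < j + 1 then (aa (l + 1) - aa l) / 1024 else 0) l := by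
    refine Finset.sum_congr rfl fun l _ => ?_
    simp only [mu_eq]
  rw [h1, Fin.sum_univ_eq_sum_range
    (fun l : ℕ => if l < j + 1 then (aa (l + 1) - aa l) / 1024 else 0) 52, ← Finset.sum_filter]
  have h2 : (Finset.range 52).filter (fun l => l < j + 1) = Finset.range (j + 1) := by
    ext l
    simp only [Finset.mem_filter, Finset.mem_range]
    omega
  have h3 : aa 0 = 0 := by simp [aa]
  rw [h2, ← Finset.sum_div, Finset.sum_range_sub, h3, sub_zero, aa_succ]

/-! ### Analytic part -/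

theorem anaA (p q M s r : ℝ) (hM : 0 ≤ M) (hr : 0 ≤ r) (hrs : r ≤ s)
    (h : p * (1024 * (30166 + s) + 60332 * M) ≤
      1048576 * (60332 * M) + q * (1024 * (30166 + s) + 60332 * M)) :
    (p - q) / 1048576 ≤ 1 - 1 / (1 + 4 / (2 + r / (15083 : ℕ)) * (M / 1024)) := by
  have hD : 0 < 1024 * (30166 + s) + 60332 * M := by nlinarith
  have hD' : 0 < 1024 * (30166 + r) + 60332 * M := by nlinarith
  have h1 : (p - q) / 1048576 ≤ 60332 * M / (1024 * (30166 + s) + 60332 * M) := by
    rw [div_le_div_iff₀ (by norm_num) hD]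
    nlinarith
  have h2 : 60332 * M / (1024 * (30166 + s) + 60332 * M) ≤
      60332 * M / (1024 * (30166 + r) + 60332 * M) :=
    div_le_div_of_nonneg_left (by positivity) hD' (by linarith)
  have h3 : 60332 * M / (1024 * (30166 + r) + 60332 * M) =
      1 - 1 / (1 + 4 / (2 + r / (15083 : ℕ)) * (M / 1024)) := by
    have e1 : 4 / (2 + r / (15083 : ℕ)) * (M / 1024) = 60332 * M / (1024 * (30166 + r)) := by
      have h4 : (2 + r / (15083 : ℕ)) = (30166 + r) / 15083 := by
        push_cast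
        ring
      have h5 : (30166 + r) ≠ 0 := by positivity
      rw [h4]
      field_simp
      ring
    have h5 : (30166 + r) ≠ 0 := by positivity
    rw [e1]
    have e2 : 1 + 60332 * M / (1024 * (30166 + r)) =
        (1024 * (30166 + r) + 60332 * M) / (1024 * (30166 + r)) := by
      field_simp
    rw [e2, one_div_div, eq_sub_iff_add_eq, ← add_div, div_eq_one_iff_eq hD'.ne']
    ring
  rw [← h3]
  exact h1.trans h2

theorem anaB (p q M s r : ℝ) (hM : 0 ≤ M) (hrs : r ≤ s) (hs : s < 30166)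
    (h : p * (1024 * (30166 - s)) + 1048576 * (60332 * M) ≤ q * (1024 * (30166 - s))) :
    (p - q) / 1048576 ≤ - (4 * (M / 1024) / (2 - r / (15083 : ℕ))) := by
  have hD : 0 < 1024 * (30166 - s) := by nlinarith
  have hD' : 0 < 1024 * (30166 - r) := by nlinarith
  have h1 : 60332 * M / (1024 * (30166 - s)) ≤ (q - p) / 1048576 := by
    rw [div_le_div_iff₀ hD (by norm_num)]
    nlinarith
  have h2 : 60332 * M / (1024 * (30166 - r)) ≤ 60332 * M / (1024 * (30166 - s)) :=
    div_le_div_of_nonneg_left (by positivity) hD (by linarith)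
  have h3 : 4 * (M / 1024) / (2 - r / (15083 : ℕ)) = 60332 * M / (1024 * (30166 - r)) := by
    have h4 : (2 - r / (15083 : ℕ)) = (30166 - r) / 15083 := by
      push_cast
      ring
    have h5 : (30166 - r) ≠ 0 := by
      intro h0
      rw [h0] at hD'
      simp at hD'
    rw [h4]
    field_simp
    ring
  rw [h3]
  have h4 : (p - q) / 1048576 = - ((q - p) / 1048576) := by ring
  rw [h4]
  exact neg_le_neg (h2.trans h1)

/-! ### The weights as functions of the sum -/

theorem wt_eq (T n b : ℕ) (h : n / 32 = b) : wt T n = look T 40 b := by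
  unfold wt
  rw [← h]
  rfl

theorem wG_le_one (n : ℕ) (hn : n < 16384) : wG n ≤ 1 := by
  unfold wG
  rw [wt_eq GP n _ rfl, wt_eq GN n _ rfl]
  have h := dG1 (n / 32) (by omega)
  have h' : (look GP 40 (n / 32) : ℝ) ≤ 1048576 + look GN 40 (n / 32) := by exact_mod_cast h
  rw [div_le_one (by norm_num)]
  linarith

theorem wB_le_one (n : ℕ) (hn : n < 16384) : wB n ≤ 1 := by
  unfold wB
  rw [wt_eq BP n _ rfl, wt_eq BN n _ rfl]
  have h := dB1 (n / 32) (by omega)
  have h' : (look BP 40 (n / 32) : ℝ) ≤ 1048576 + look BN 40 (n / 32) := by exact_mod_cast h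
  rw [div_le_one (by norm_num)]
  linarith

theorem wG_A (n : ℕ) (h1 : 13695 < n) (h2 : n ≤ 15359) :
    wG n ≤ 1 - 1 / (1 + 4 / (2 + ((n + 44 : ℕ) : ℝ) / (15083 : ℕ)) *
      ((look TM 32 ((15359 - n) / 32) : ℝ) / 1024)) := by
  obtain ⟨j, hj⟩ : ∃ j, (15359 - n) / 32 = j := ⟨_, rfl⟩
  rw [hj]
  have hb : n / 32 = 479 - j := by omega
  unfold wG
  rw [wt_eq GP n _ hb, wt_eq GN n _ hb]
  have hj2 : 32 * j ≤ 15403 := by omega
  have h := dGA j (by omega)
  have hrs : ((n + 44 : ℕ) : ℝ) ≤ ((15403 - 32 * j : ℕ) : ℝ) := by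
    exact_mod_cast (show n + 44 ≤ 15403 - 32 * j by omega)
  refine anaA _ _ _ ((15403 - 32 * j : ℕ) : ℝ) _ (Nat.cast_nonneg _) (Nat.cast_nonneg _) hrs ?_
  exact_mod_cast h

theorem wB_A (n : ℕ) (h1 : 13055 < n) (h2 : n ≤ 14719) :
    wB n ≤ 1 - 1 / (1 + 4 / (2 + ((n + 44 : ℕ) : ℝ) / (15083 : ℕ)) *
      ((look TM 32 ((14719 - n) / 32) : ℝ) / 1024)) := by
  obtain ⟨j, hj⟩ : ∃ j, (14719 - n) / 32 = j := ⟨_, rfl⟩
  rw [hj]
  have hb : n / 32 = 459 - j := by omega
  unfold wB
  rw [wt_eq BP n _ hb, wt_eq BN n _ hb]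
  have hj2 : 32 * j ≤ 14763 := by omega
  have h := dBA j (by omega)
  have hrs : ((n + 44 : ℕ) : ℝ) ≤ ((14763 - 32 * j : ℕ) : ℝ) := by
    exact_mod_cast (show n + 44 ≤ 14763 - 32 * j by omega)
  refine anaA _ _ _ ((14763 - 32 * j : ℕ) : ℝ) _ (Nat.cast_nonneg _) (Nat.cast_nonneg _) hrs ?_
  exact_mod_cast h

theorem wG_B (n : ℕ) (h1 : 15360 ≤ n) (h2 : n < 16384) :
    wG n ≤ - (4 * ((look TM 32 ((n - 15360) / 32) : ℝ) / 1024) /
      (2 - ((n + 44 : ℕ) : ℝ) / (15083 : ℕ))) := by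
  obtain ⟨j, hj⟩ : ∃ j, (n - 15360) / 32 = j := ⟨_, rfl⟩
  rw [hj]
  have hb : n / 32 = 480 + j := by omega
  unfold wG
  rw [wt_eq GP n _ hb, wt_eq GN n _ hb]
  have hj2 : j < 32 := by omega
  have h := dGB j hj2
  have e1 : ((14731 - 32 * j : ℕ) : ℝ) = 30166 - ((15435 + 32 * j : ℕ) : ℝ) := by
    rw [Nat.cast_sub (by omega)]
    push_cast
    ring
  have hrs : ((n + 44 : ℕ) : ℝ) ≤ ((15435 + 32 * j : ℕ) : ℝ) := by
    exact_mod_cast (show n + 44 ≤ 15435 + 32 * j by omega)
  have hs : ((15435 + 32 * j : ℕ) : ℝ) < 30166 := by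
    exact_mod_cast (show 15435 + 32 * j < 30166 by omega)
  refine anaB _ _ _ ((15435 + 32 * j : ℕ) : ℝ) _ (Nat.cast_nonneg _) hrs hs ?_
  rw [← e1]
  exact_mod_cast h

theorem wB_B (n : ℕ) (h1 : 14720 ≤ n) (h2 : n < 16384) :
    wB n ≤ - (4 * ((look TM 32 ((n - 14720) / 32) : ℝ) / 1024) /
      (2 - ((n + 44 : ℕ) : ℝ) / (15083 : ℕ))) := by
  obtain ⟨j, hj⟩ : ∃ j, (n - 14720) / 32 = j := ⟨_, rfl⟩
  rw [hj]
  have hb : n / 32 = 460 + j := by omega
  unfold wB
  rw [wt_eq BP n _ hb, wt_eq BN n _ hb]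
  have hj2 : j < 52 := by omega
  have h := dBB j hj2
  have e1 : ((15371 - 32 * j : ℕ) : ℝ) = 30166 - ((14795 + 32 * j : ℕ) : ℝ) := by
    rw [Nat.cast_sub (by omega)]
    push_cast
    ring
  have hrs : ((n + 44 : ℕ) : ℝ) ≤ ((14795 + 32 * j : ℕ) : ℝ) := by
    exact_mod_cast (show n + 44 ≤ 14795 + 32 * j by omega)
  have hs : ((14795 + 32 * j : ℕ) : ℝ) < 30166 := by
    exact_mod_cast (show 14795 + 32 * j < 30166 by omega)
  refine anaB _ _ _ ((14795 + 32 * j : ℕ) : ℝ) _ (Nat.cast_nonneg _) hrs hs ?_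
  rw [← e1]
  exact_mod_cast h

/-! ### Conclusion -/

theorem rad_eq (c : Fin 44 → ℕ) : rad c = ∑ j, c j + 44 := by
  unfold rad
  rw [Finset.sum_add_distrib]
  simp

attribute [local irreducible] Box

theorem mem_AA (c : Fin 44 → ℕ) : c ∈ AA → ∑ j, c j < 16384 := by
  rw [AA, Finset.mem_filter]
  exact fun h => h.2.1

attribute [local irreducible] AA

theorem sumA (m : ℕ) (hm : m < 1664) :
    (∑ l : Fin 52, if 32 * (l : ℕ) ≤ m then mu l else 0) = (look TM 32 (m / 32) : ℝ) / 1024 := by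
  rw [← sum_mu (m / 32) (by omega)]
  refine Finset.sum_congr rfl fun l _ => ?_
  have : (32 * (l : ℕ) ≤ m) ↔ ((l : ℕ) < m / 32 + 1) := by omega
  simp only [this]

theorem sumB (m : ℕ) (hm : m < 1664) :
    (∑ l : Fin 52, if 32 * (l : ℕ) < m + 1 then mu l else 0) = (look TM 32 (m / 32) : ℝ) / 1024 := by
  rw [← sum_mu (m / 32) (by omega)]
  refine Finset.sum_congr rfl fun l _ => ?_
  have : (32 * (l : ℕ) < m + 1) ↔ ((l : ℕ) < m / 32 + 1) := by omega
  simp only [this]

/-- Task KC. -/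
theorem kc : S_KC := by
  refine ⟨mu_nonneg, ?_, ?_, ?_, ?_, ?_, ?_⟩
  · intro c hc
    have h := mem_AA c hc
    rw [rad_eq]
    omega
  · intro c hc
    have h := mem_AA c hc
    have hr := rad_eq c
    by_cases hg : Gd2 15083 c
    · rw [rho, if_pos hg]
      omega
    · rw [rho, if_neg hg]
      omega
  · intro c hc _
    have h := mem_AA c hc
    by_cases hg : Gd2 15083 c
    · rw [WW, if_pos hg]
      exact wG_le_one _ h
    · rw [WW, if_neg hg]
      exact wB_le_one _ h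
  · intro c hc h1 h2
    have h := mem_AA c hc
    have hr := rad_eq c
    by_cases hg : Gd2 15083 c
    · rw [rho, if_pos hg] at h1 h2 ⊢
      rw [WW, if_pos hg]
      rw [hr] at h1 h2 ⊢
      obtain ⟨n, hn⟩ : ∃ n, ∑ j, c j = n := ⟨_, rfl⟩
      rw [hn] at h1 h2 ⊢
      rw [sumA (15403 - (n + 44)) (by omega)]
      have e : 15403 - (n + 44) = 15359 - n := by omega
      rw [e]
      exact wG_A n (by omega) (by omega)
    · rw [rho, if_neg hg] at h1 h2 ⊢
      rw [WW, if_neg hg]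
      rw [hr] at h1 h2 ⊢
      obtain ⟨n, hn⟩ : ∃ n, ∑ j, c j = n := ⟨_, rfl⟩
      rw [hn] at h1 h2 ⊢
      rw [sumA (15403 - (n + 44 + 640)) (by omega)]
      have e : 15403 - (n + 44 + 640) = 14719 - n := by omega
      rw [e]
      exact wB_A n (by omega) (by omega)
  · intro c hc h1
    have h := mem_AA c hc
    have hr := rad_eq c
    by_cases hg : Gd2 15083 c
    · rw [rho, if_pos hg] at h1 ⊢
      rw [WW, if_pos hg]
      rw [hr] at h1 ⊢
      obtain ⟨n, hn⟩ : ∃ n, ∑ j, c j = n := ⟨_, rfl⟩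
      rw [hn] at h1 h ⊢
      have e : n + 44 - 15403 = (n - 15360) + 1 := by omega
      rw [e, sumB (n - 15360) (by omega)]
      exact wG_B n (by omega) h
    · rw [rho, if_neg hg] at h1 ⊢
      rw [WW, if_neg hg]
      rw [hr] at h1 ⊢
      obtain ⟨n, hn⟩ : ∃ n, ∑ j, c j = n := ⟨_, rfl⟩
      rw [hn] at h1 h ⊢
      have e : n + 44 + 640 - 15403 = (n - 14720) + 1 := by omega
      rw [e, sumB (n - 14720) (by omega)]
      exact wB_B n (by omega) h
  · intro n hn
    unfold wG wB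
    rw [wt_eq GP n _ rfl, wt_eq GN n _ rfl, wt_eq BP n _ rfl, wt_eq BN n _ rfl, wt_eq TD n _ rfl]
    have h := dT (n / 32) (by omega)
    have h' : (look GP 40 (n / 32) : ℝ) + look BN 40 (n / 32) =
        look TD 40 (n / 32) + look GN 40 (n / 32) + look BP 40 (n / 32) := by exact_mod_cast h
    rw [← sub_div]
    congr 1
    linarith

end Pool.Agent.Y93.ZC
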